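import Mathlib

/-!
# A non-affine monotone solution of the sliding-window Golomb equation for `r = 4`

The solution is `φ = F ∘ φ₄ ∘ F⁻¹` with `φ₄(x) = x/2 + 1/2` and `F` the distribution function of
the base-4 Bernoulli measure with weights `(1/3, 1/6, 1/6, 1/3)`, extended by
`F(x+1) = F(x) + 1`.
-/

namespace Pool.Agent.Results.MP_39cb5d_an.NonAffine

open Filter Topology

/-- Weights, depending on `k mod 4`. -/
noncomputable def wt (k : ℤ) : ℝ := if k % 4 = 0 ∨ k % 4 = 3 then 1 / 3 else 1 / 6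

/-- Partial sums of the weights. -/
noncomputable def B (k : ℤ) : ℝ :=
  ((k / 4 : ℤ) : ℝ) + (if k % 4 = 0 then 0 else if k % 4 = 1 then 1 / 3 else
    if k % 4 = 2 then 1 / 2 else 2 / 3)

theorem wt_pos (k : ℤ) : 0 < wt k := by unfold wt; split_ifs <;> norm_num

theorem wt_le (k : ℤ) : wt k ≤ 1 / 3 := by unfold wt; split_ifs <;> norm_num

theorem wt_add_four (k : ℤ) : wt (k + 4) = wt k := by
  unfold wt
  have : (k + 4) % 4 = k % 4 := by omega
  rw [this]

theorem cases4 (k : ℤ) : ∃ q : ℤ, k = 4 * q ∨ k = 4 * q + 1 ∨ k = 4 * q + 2 ∨ k = 4 * q + 3 :=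
  ⟨k / 4, by omega⟩

theorem B0 (q : ℤ) : B (4 * q) = q := by
  unfold B
  have h1 : (4 * q) / 4 = q := by omega
  have h2 : (4 * q) % 4 = 0 := by omega
  rw [h1, h2]; simp

theorem B1 (q : ℤ) : B (4 * q + 1) = q + 1 / 3 := by
  unfold B
  have h1 : (4 * q + 1) / 4 = q := by omega
  have h2 : (4 * q + 1) % 4 = 1 := by omega
  rw [h1, h2]; norm_num

theorem B2 (q : ℤ) : B (4 * q + 2) = q + 1 / 2 := by
  unfold B
  have h1 : (4 * q + 2) / 4 = q := by omega
  have h2 : (4 * q + 2) % 4 = 2 := by omega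
  rw [h1, h2]; norm_num

theorem B3 (q : ℤ) : B (4 * q + 3) = q + 2 / 3 := by
  unfold B
  have h1 : (4 * q + 3) / 4 = q := by omega
  have h2 : (4 * q + 3) % 4 = 3 := by omega
  rw [h1, h2]; norm_num

theorem w0 (q : ℤ) : wt (4 * q) = 1 / 3 := by
  unfold wt
  have h2 : (4 * q) % 4 = 0 := by omega
  rw [h2]; norm_num

theorem w1 (q : ℤ) : wt (4 * q + 1) = 1 / 6 := by
  unfold wt
  have h2 : (4 * q + 1) % 4 = 1 := by omega
  rw [h2]; norm_num

theorem w2 (q : ℤ) : wt (4 * q + 2) = 1 / 6 := by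
  unfold wt
  have h2 : (4 * q + 2) % 4 = 2 := by omega
  rw [h2]; norm_num

theorem w3 (q : ℤ) : wt (4 * q + 3) = 1 / 3 := by
  unfold wt
  have h2 : (4 * q + 3) % 4 = 3 := by omega
  rw [h2]; norm_num

theorem B_succ (k : ℤ) : B (k + 1) = B k + wt k := by
  obtain ⟨q, h | h | h | h⟩ := cases4 k <;> subst h
  · rw [B1, B0, w0]
  · have : 4 * q + 1 + 1 = 4 * q + 2 := by ring
    rw [this, B2, B1, w1]; ring
  · have : 4 * q + 2 + 1 = 4 * q + 3 := by ring
    rw [this, B3, B2, w2]; ring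
  · have : 4 * q + 3 + 1 = 4 * (q + 1) := by ring
    rw [this, B0, B3, w3]; push_cast; ring

theorem B_add_four (k : ℤ) : B (k + 4) = B k + 1 := by
  obtain ⟨q, h | h | h | h⟩ := cases4 k <;> subst h
  · have : 4 * q + 4 = 4 * (q + 1) := by ring
    rw [this, B0, B0]; push_cast; ring
  · have : 4 * q + 1 + 4 = 4 * (q + 1) + 1 := by ring
    rw [this, B1, B1]; push_cast; ring
  · have : 4 * q + 2 + 4 = 4 * (q + 1) + 2 := by ring
    rw [this, B2, B2]; push_cast; ring
  · have : 4 * q + 3 + 4 = 4 * (q + 1) + 3 := by ring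
    rw [this, B3, B3]; push_cast; ring

theorem B_mono : Monotone B :=
  monotone_int_of_le_succ fun k => by rw [B_succ]; linarith [wt_pos k]

theorem B_near (k : ℤ) : |B k - k / 4| ≤ 1 / 12 := by
  rw [abs_le]
  obtain ⟨q, h | h | h | h⟩ := cases4 k <;> subst h
  · rw [B0]; push_cast; constructor <;> linarith
  · rw [B1]; push_cast; constructor <;> linarith
  · rw [B2]; push_cast; constructor <;> linarith
  · rw [B3]; push_cast; constructor <;> linarith

/-- The two identities behind the functional equation. -/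
theorem pair_wt (m : ℤ) : wt m + wt (m + 2) = 1 / 2 := by
  obtain ⟨q, h | h | h | h⟩ := cases4 m <;> subst h
  · rw [w0, w2]; norm_num
  · have : 4 * q + 1 + 2 = 4 * q + 3 := by ring
    rw [this, w1, w3]; norm_num
  · have : 4 * q + 2 + 2 = 4 * (q + 1) := by ring
    rw [this, w2, w0]; norm_num
  · have : 4 * q + 3 + 2 = 4 * (q + 1) + 1 := by ring
    rw [this, w3, w1]; norm_num

theorem pair_B (m : ℤ) : B m + B (m + 2) = (m + 1) / 2 := by
  obtain ⟨q, h | h | h | h⟩ := cases4 m <;> subst h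
  · rw [B0, B2]; push_cast; ring
  · have : 4 * q + 1 + 2 = 4 * q + 3 := by ring
    rw [this, B1, B3]; push_cast; ring
  · have : 4 * q + 2 + 2 = 4 * (q + 1) := by ring
    rw [this, B2, B0]; push_cast; ring
  · have : 4 * q + 3 + 2 = 4 * (q + 1) + 1 := by ring
    rw [this, B3, B1]; push_cast; ring

/-- The approximations of `F`. -/
noncomputable def f : ℕ → ℝ → ℝ
  | 0, u => u
  | n + 1, u => B ⌊4 * u⌋ + wt ⌊4 * u⌋ * (f n (4 * u) - ⌊4 * u⌋)

theorem f_succ (n : ℕ) (u : ℝ) :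
    f (n + 1) u = B ⌊4 * u⌋ + wt ⌊4 * u⌋ * (f n (4 * u) - ⌊4 * u⌋) := rfl

theorem f_int (n : ℕ) (k : ℤ) : f n k = k := by
  induction n generalizing k with
  | zero => rfl
  | succ n ih =>
    rw [f_succ]
    have h1 : (4 * (k : ℝ)) = ((4 * k : ℤ) : ℝ) := by push_cast; ring
    rw [h1, Int.floor_intCast, ih, B0]; ring

theorem f_mono (n : ℕ) : Monotone (f n) := by
  induction n with
  | zero => exact fun x y h => h
  | succ n ih =>
    intro u v huv
    rw [f_succ, f_succ]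
    have h4 : 4 * u ≤ 4 * v := by linarith
    rcases (Int.floor_mono h4).eq_or_lt with h | h
    · rw [h]
      have := mul_le_mul_of_nonneg_left (ih h4) (wt_pos ⌊4 * v⌋).le
      linarith
    · have h1 : f n (4 * u) ≤ ((⌊4 * u⌋ + 1 : ℤ) : ℝ) := by
        rw [← f_int n]
        apply ih
        push_cast
        exact (Int.lt_floor_add_one _).le
      have h2 : ((⌊4 * v⌋ : ℤ) : ℝ) ≤ f n (4 * v) := by
        rw [← f_int n ⌊4 * v⌋]
        exact ih (Int.floor_le _)
      push_cast at h1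
      have h3 : wt ⌊4 * u⌋ * (f n (4 * u) - ⌊4 * u⌋) ≤ wt ⌊4 * u⌋ * 1 :=
        mul_le_mul_of_nonneg_left (by linarith) (wt_pos _).le
      have h5 : 0 ≤ wt ⌊4 * v⌋ * (f n (4 * v) - ⌊4 * v⌋) :=
        mul_nonneg (wt_pos _).le (by linarith)
      have h6 : B (⌊4 * u⌋ + 1) ≤ B ⌊4 * v⌋ := B_mono (by omega)
      rw [B_succ] at h6
      linarith

theorem f_add_one (n : ℕ) (u : ℝ) : f n (u + 1) = f n u + 1 := by
  induction n generalizing u with
  | zero => rfl
  | succ n ih =>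
    rw [f_succ, f_succ]
    have h1 : 4 * (u + 1) = 4 * u + ((4 : ℤ) : ℝ) := by push_cast; ring
    rw [h1, Int.floor_add_intCast, B_add_four, wt_add_four]
    have h2 : f n (4 * u + ((4 : ℤ) : ℝ)) = f n (4 * u) + 4 := by
      have : 4 * u + ((4 : ℤ) : ℝ) = 4 * u + 1 + 1 + 1 + 1 := by push_cast; ring
      rw [this, ih, ih, ih, ih]; ring
    rw [h2]; push_cast; ring

theorem f_step (n : ℕ) (u : ℝ) : |f n u - f (n + 1) u| ≤ 1 * (1 / 3) ^ n := by
  induction n generalizing u with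
  | zero =>
    rw [f_succ]
    have h1 := B_near ⌊4 * u⌋
    have h2 := Int.floor_le (4 * u)
    have h3 := Int.lt_floor_add_one (4 * u)
    have h4 := wt_pos ⌊4 * u⌋
    have h5 := wt_le ⌊4 * u⌋
    have e : f 0 u = u := rfl
    have e4 : f 0 (4 * u) = 4 * u := rfl
    rw [e, e4]
    rw [abs_le] at h1 ⊢
    have h6 : 0 ≤ wt ⌊4 * u⌋ * (4 * u - ⌊4 * u⌋) := mul_nonneg h4.le (by linarith)
    have h7 : wt ⌊4 * u⌋ * (4 * u - ⌊4 * u⌋) ≤ 1 / 3 * 1 :=
      mul_le_mul h5 (by linarith) (by linarith) (by norm_num)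
    constructor <;> linarith [h1.1, h1.2]
  | succ n ih =>
    rw [f_succ, f_succ (n + 1)]
    have h := ih (4 * u)
    have e : B ⌊4 * u⌋ + wt ⌊4 * u⌋ * (f n (4 * u) - ⌊4 * u⌋) -
        (B ⌊4 * u⌋ + wt ⌊4 * u⌋ * (f (n + 1) (4 * u) - ⌊4 * u⌋)) =
        wt ⌊4 * u⌋ * (f n (4 * u) - f (n + 1) (4 * u)) := by ring
    rw [e, abs_mul, abs_of_pos (wt_pos _)]
    calc wt ⌊4 * u⌋ * |f n (4 * u) - f (n + 1) (4 * u)| ≤ 1 / 3 * (1 * (1 / 3) ^ n) :=
          mul_le_mul (wt_le _) h (abs_nonneg _) (by norm_num)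
      _ = 1 * (1 / 3) ^ (n + 1) := by ring

theorem f_tendsto (u : ℝ) : ∃ a, Tendsto (fun n => f n u) atTop (𝓝 a) := by
  have hc : CauchySeq (fun n => f n u) :=
    cauchySeq_of_le_geometric (1 / 3) 1 (by norm_num) fun n => by
      rw [Real.dist_eq]; exact f_step n u
  exact cauchySeq_tendsto_of_complete hc

/-- The distribution function, extended to `ℝ`. -/
noncomputable def F (u : ℝ) : ℝ := Classical.choose (f_tendsto u)

theorem F_spec (u : ℝ) : Tendsto (fun n => f n u) atTop (𝓝 (F u)) :=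
  Classical.choose_spec (f_tendsto u)

theorem F_eq (u : ℝ) : F u = B ⌊4 * u⌋ + wt ⌊4 * u⌋ * (F (4 * u) - ⌊4 * u⌋) := by
  have h1 : Tendsto (fun n => f (n + 1) u) atTop (𝓝 (F u)) :=
    (F_spec u).comp (tendsto_add_atTop_nat 1)
  have h2 : Tendsto (fun n => f (n + 1) u) atTop
      (𝓝 (B ⌊4 * u⌋ + wt ⌊4 * u⌋ * (F (4 * u) - ⌊4 * u⌋))) := by
    simp_rw [f_succ]
    exact ((F_spec (4 * u)).sub_const _).const_mul _ |>.const_add _
  exact tendsto_nhds_unique h1 h2

theorem F_int (k : ℤ) : F k = k := by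
  have h := F_spec k
  simp_rw [f_int] at h
  exact tendsto_nhds_unique h tendsto_const_nhds

theorem F_mono : Monotone F := fun u v h =>
  le_of_tendsto_of_tendsto' (F_spec u) (F_spec v) fun n => f_mono n h

theorem F_add_one (u : ℝ) : F (u + 1) = F u + 1 := by
  have h := F_spec (u + 1)
  simp_rw [f_add_one] at h
  exact tendsto_nhds_unique h ((F_spec u).add_const 1)

theorem F_add_int (u : ℝ) (k : ℤ) : F (u + k) = F u + k := by
  induction k using Int.induction_on with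
  | zero => simp
  | succ i ih =>
    have : u + ((i + 1 : ℤ) : ℝ) = u + (i : ℤ) + 1 := by push_cast; ring
    rw [this, F_add_one, ih]; push_cast; ring
  | pred i ih =>
    have h : F (u + ((-i - 1 : ℤ) : ℝ) + 1) = F (u + ((-i - 1 : ℤ) : ℝ)) + 1 := F_add_one _
    have e : u + ((-i - 1 : ℤ) : ℝ) + 1 = u + ((-i : ℤ) : ℝ) := by push_cast; ring
    rw [e, ih] at h
    push_cast at h ⊢
    linarith

/-- The self-affine equation on closed quarter cells. -/
theorem F_eq' {v : ℝ} {j : ℤ} (h1 : (j : ℝ) ≤ 4 * v) (h2 : 4 * v ≤ j + 1) :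
    F v = B j + wt j * (F (4 * v) - j) := by
  rcases h2.eq_or_lt with h | h
  · have h3 : (4 * v) = ((j + 1 : ℤ) : ℝ) := by push_cast; exact h
    rw [F_eq v, h3, Int.floor_intCast, F_int, B_succ]
    push_cast; ring
  · have h3 : ⌊4 * v⌋ = j := Int.floor_eq_iff.mpr ⟨h1, h⟩
    rw [F_eq v, h3]

/-- Lengths of the cells. -/
theorem F_cell (n : ℕ) (k : ℤ) :
    0 < F ((k + 1 : ℝ) / 4 ^ n) - F ((k : ℝ) / 4 ^ n) ∧
      F ((k + 1 : ℝ) / 4 ^ n) - F ((k : ℝ) / 4 ^ n) ≤ (1 / 3) ^ n := by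
  induction n with
  | zero =>
    have h1 : ((k + 1 : ℝ) / 4 ^ 0) = ((k + 1 : ℤ) : ℝ) := by push_cast; ring
    have h2 : ((k : ℝ) / 4 ^ 0) = ((k : ℤ) : ℝ) := by ring
    rw [h1, h2, F_int, F_int]; push_cast
    constructor <;> norm_num
  | succ n ih =>
    have hp : (0 : ℝ) < 4 ^ n := by positivity
    set j : ℤ := ⌊(k : ℝ) / 4 ^ n⌋ with hj
    have e1 : 4 * ((k : ℝ) / 4 ^ (n + 1)) = (k : ℝ) / 4 ^ n := by
      rw [pow_succ]; field_simp
    have e2 : 4 * ((k + 1 : ℝ) / 4 ^ (n + 1)) = (k + 1 : ℝ) / 4 ^ n := by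
      rw [pow_succ]; field_simp
    have hj1 : (j : ℝ) ≤ (k : ℝ) / 4 ^ n := Int.floor_le _
    have hj2 : (k : ℝ) / 4 ^ n < j + 1 := Int.lt_floor_add_one _
    have hj3 : (k + 1 : ℝ) / 4 ^ n ≤ j + 1 := by
      rw [div_lt_iff₀ hp] at hj2
      rw [div_le_iff₀ hp]
      have : k < (j + 1) * 4 ^ n := by exact_mod_cast hj2
      have : k + 1 ≤ (j + 1) * 4 ^ n := this
      exact_mod_cast this
    have hj4 : (k : ℝ) / 4 ^ n ≤ (k + 1 : ℝ) / 4 ^ n :=
      div_le_div_of_nonneg_right (by linarith) hp.le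
    have f1 := F_eq' (v := (k : ℝ) / 4 ^ (n + 1)) (j := j) (by rw [e1]; exact hj1)
      (by rw [e1]; exact hj2.le)
    have f2 := F_eq' (v := (k + 1 : ℝ) / 4 ^ (n + 1)) (j := j) (by rw [e2]; linarith)
      (by rw [e2]; exact hj3)
    rw [e1] at f1
    rw [e2] at f2
    have e : F ((k + 1 : ℝ) / 4 ^ (n + 1)) - F ((k : ℝ) / 4 ^ (n + 1)) =
        wt j * (F ((k + 1 : ℝ) / 4 ^ n) - F ((k : ℝ) / 4 ^ n)) := by
      rw [f1, f2]; ring
    rw [e]
    refine ⟨mul_pos (wt_pos j) ih.1, ?_⟩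
    calc wt j * (F ((k + 1 : ℝ) / 4 ^ n) - F ((k : ℝ) / 4 ^ n)) ≤ 1 / 3 * (1 / 3) ^ n :=
          mul_le_mul (wt_le j) ih.2 ih.1.le (by norm_num)
      _ = (1 / 3) ^ (n + 1) := by ring

theorem F_strictMono : StrictMono F := by
  intro x y hxy
  obtain ⟨n, hn⟩ := exists_pow_lt_of_lt_one (show 0 < (y - x) / 2 by linarith)
    (show (1 / 4 : ℝ) < 1 by norm_num)
  have hp : (0 : ℝ) < 4 ^ n := by positivity
  set k : ℤ := ⌈x * 4 ^ n⌉ with hk
  have h1 : x * 4 ^ n ≤ k := Int.le_ceil _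
  have h2 : (k : ℝ) < x * 4 ^ n + 1 := Int.ceil_lt_add_one _
  have h3 : (2 : ℝ) < (y - x) * 4 ^ n := by
    rw [one_div, inv_pow] at hn
    have := mul_lt_mul_of_pos_right hn hp
    rw [inv_mul_cancel₀ hp.ne'] at this
    linarith
  have h4 : x ≤ (k : ℝ) / 4 ^ n := by rw [le_div_iff₀ hp]; exact h1
  have h5 : (k + 1 : ℝ) / 4 ^ n ≤ y := by rw [div_le_iff₀ hp]; linarith
  have h6 := (F_cell n k).1
  linarith [F_mono h4, F_mono h5]

theorem F_continuous : Continuous F := by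
  rw [Metric.continuous_iff]
  have key : ∀ (n : ℕ) (x y : ℝ), x ≤ y → y - x < (1 / 4) ^ n → F y - F x ≤ 2 * (1 / 3) ^ n := by
    intro n x y hxy hd
    have hp : (0 : ℝ) < 4 ^ n := by positivity
    set k : ℤ := ⌊x * 4 ^ n⌋ with hk
    have h1 : (k : ℝ) ≤ x * 4 ^ n := Int.floor_le _
    have h2 : x * 4 ^ n < k + 1 := Int.lt_floor_add_one _
    have h3 : (y - x) * 4 ^ n < 1 := by
      rw [one_div, inv_pow] at hd
      have := mul_lt_mul_of_pos_right hd hp
      rwa [inv_mul_cancel₀ hp.ne'] at this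
    have h4 : (k : ℝ) / 4 ^ n ≤ x := by rw [div_le_iff₀ hp]; exact h1
    have h5 : y ≤ (((k + 1 : ℤ) : ℝ) + 1) / 4 ^ n := by
      rw [le_div_iff₀ hp]; push_cast; linarith
    have c1 := (F_cell n k).2
    have c2 := (F_cell n (k + 1)).2
    have e : ((k + 1 : ℤ) : ℝ) = (k : ℝ) + 1 := by push_cast; ring
    rw [e] at c2 h5
    linarith [F_mono h4, F_mono h5]
  intro x ε hε
  obtain ⟨n, hn⟩ := exists_pow_lt_of_lt_one (show 0 < ε / 2 by linarith)
    (show (1 / 3 : ℝ) < 1 by norm_num)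
  refine ⟨(1 / 4) ^ n, by positivity, fun y hy => ?_⟩
  rw [Real.dist_eq] at hy ⊢
  rcases le_total x y with h | h
  · rw [abs_of_nonneg (by linarith)] at hy
    rw [abs_of_nonneg (by linarith [F_mono h])]
    linarith [key n x y h hy]
  · rw [abs_of_nonpos (by linarith)] at hy
    rw [abs_of_nonpos (by linarith [F_mono h])]
    linarith [key n y x h (by linarith)]

theorem F_surjective : Function.Surjective F := by
  apply F_continuous.surjective
  · apply tendsto_atTop_mono (f := fun u : ℝ => u - 1)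
    · intro u
      have h1 : ((⌊u⌋ : ℤ) : ℝ) ≤ F u := by
        rw [← F_int]; exact F_mono (Int.floor_le u)
      linarith [Int.lt_floor_add_one u]
    · exact tendsto_atTop_add_const_right _ _ tendsto_id
  · apply tendsto_atBot_mono (f := fun u : ℝ => u + 1)
    · intro u
      have h1 : F u ≤ ((⌈u⌉ : ℤ) : ℝ) := by
        rw [← F_int ⌈u⌉]; exact F_mono (Int.le_ceil u)
      linarith [Int.ceil_lt_add_one u]
    · exact tendsto_atBot_add_const_right _ _ tendsto_id

/-- The linear functional equation of `F`. -/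
theorem F_double (u : ℝ) : 2 * F (u / 2) + 2 * F ((u + 1) / 2) = F (2 * u) + 1 := by
  set m : ℤ := ⌊2 * u⌋ with hm
  have h1 : F (u / 2) = B m + wt m * (F (2 * u) - m) := by
    have e : 4 * (u / 2) = 2 * u := by ring
    rw [F_eq, e]
  have h2 : F ((u + 1) / 2) = B (m + 2) + wt (m + 2) * (F (2 * u) - m) := by
    have e : 4 * ((u + 1) / 2) = 2 * u + ((2 : ℤ) : ℝ) := by push_cast; ring
    rw [F_eq, e, Int.floor_add_intCast, F_add_int]
    push_cast; ring
  have h3 := pair_wt m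
  have h4 := pair_B m
  rw [h1, h2]
  have : 2 * (B m + wt m * (F (2 * u) - m)) + 2 * (B (m + 2) + wt (m + 2) * (F (2 * u) - m)) =
      2 * (B m + B (m + 2)) + 2 * (wt m + wt (m + 2)) * (F (2 * u) - m) := by ring
  rw [this, h3, h4]; ring

/-- `F` as an order isomorphism of `ℝ`. -/
noncomputable def e : ℝ ≃o ℝ := StrictMono.orderIsoOfSurjective F F_strictMono F_surjective

theorem e_apply (u : ℝ) : e u = F u := rfl

/-- The non-affine solution. -/
noncomputable def phi (x : ℝ) : ℝ := F ((e.symm x + 1) / 2)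

theorem phi_F (u : ℝ) : phi (F u) = F ((u + 1) / 2) := by
  unfold phi
  rw [← e_apply u, e.symm_apply_apply]

theorem phi_continuous : Continuous phi := by
  unfold phi
  exact F_continuous.comp ((e.symm.continuous.add continuous_const).div_const 2)

theorem phi_mono : Monotone phi := fun x y h => by
  unfold phi
  apply F_mono
  have := e.symm.monotone h
  linarith

theorem phi_solution (x : ℝ) : phi (∑ j ∈ Finset.range 4, phi (x - j)) = x := by
  obtain ⟨u, rfl⟩ := F_surjective x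
  have h : ∀ j : ℕ, phi (F u - j) = F ((u - j + 1) / 2) := by
    intro j
    have : F u - j = F (u - j) := by
      have h2 := F_add_int u (-(j : ℤ))
      push_cast at h2
      rw [sub_eq_add_neg, sub_eq_add_neg, h2]
    rw [this, phi_F]
  simp only [h, Finset.sum_range_succ, Finset.sum_range_zero]
  have e2 : F ((u - (2 : ℕ) + 1) / 2) = F ((u + 1) / 2) - 1 := by
    have h2 := F_add_one ((u - (2 : ℕ) + 1) / 2)
    have : (u - (2 : ℕ) + 1) / 2 + 1 = (u + 1) / 2 := by push_cast; ring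
    rw [this] at h2; linarith
  have e3 : F ((u - (3 : ℕ) + 1) / 2) = F (u / 2) - 1 := by
    have h2 := F_add_one ((u - (3 : ℕ) + 1) / 2)
    have : (u - (3 : ℕ) + 1) / 2 + 1 = u / 2 := by push_cast; ring
    rw [this] at h2; linarith
  have e1 : F ((u - (1 : ℕ) + 1) / 2) = F (u / 2) := by
    congr 1; push_cast; ring
  have e0 : F ((u - (0 : ℕ) + 1) / 2) = F ((u + 1) / 2) := by
    congr 1; push_cast; ring
  rw [e0, e1, e2, e3]
  have h4 : 0 + F ((u + 1) / 2) + F (u / 2) + (F ((u + 1) / 2) - 1) + (F (u / 2) - 1) =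
      F (2 * u - 1) := by
    have h5 := F_double u
    have h6 := F_add_one (2 * u - 1)
    rw [sub_add_cancel] at h6
    linarith
  rw [h4, phi_F]
  congr 1; ring

theorem phi_value : phi (-(1 / 2)) = 1 / 3 := by
  have h1 : F (-(1 / 2)) = -(1 / 2) := by
    have h2 := F_add_one (-(1 / 2))
    have h3 : F (-(1 / 2) + 1) = 1 / 2 := by
      rw [F_eq' (j := 2) (by norm_num) (by norm_num)]
      have : (4 * (-(1 / 2) + 1) : ℝ) = ((2 : ℤ) : ℝ) := by norm_num
      rw [this, F_int]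
      have b := B2 0
      norm_num at b ⊢
      exact b
    linarith
  have h2 := phi_F (-(1 / 2))
  rw [h1] at h2
  rw [h2]
  have h3 : ((-(1 / 2) + 1) / 2 : ℝ) = 1 / 4 := by norm_num
  rw [h3, F_eq' (j := 1) (by norm_num) (by norm_num)]
  have : (4 * (1 / 4) : ℝ) = ((1 : ℤ) : ℝ) := by norm_num
  rw [this, F_int]
  have b := B1 0
  norm_num at b ⊢
  exact b

/-- Q1 of MP_39cb5d_an is false: for `r = 4` there is a continuous nondecreasing solution of
`φ (∑_{j<r} φ(x - j)) = x` other than the affine one. -/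
theorem result :
    (¬ ∀ r : ℕ, 2 ≤ r → ∀ φ : ℝ → ℝ, Continuous φ → Monotone φ →
      (∀ x : ℝ, φ (∑ j ∈ Finset.range r, φ (x - j)) = x) →
      φ = fun x => x / √(r : ℝ) + (√(r : ℝ) - 1) / 2) ∧
    (∃ φ : ℝ → ℝ, Continuous φ ∧ Monotone φ ∧
      (∀ x : ℝ, φ (∑ j ∈ Finset.range 4, φ (x - j)) = x) ∧
      ∀ c d : ℝ, φ ≠ fun x => c * x + d) := by
  have s4 : √((4 : ℕ) : ℝ) = 2 := by
    rw [show ((4 : ℕ) : ℝ) = 2 ^ 2 by norm_num]
    exact Real.sqrt_sq (by norm_num)
  constructor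
  · intro h
    have h1 := h 4 (by norm_num) phi phi_continuous phi_mono phi_solution
    have h2 := congrFun h1 (-(1 / 2))
    rw [phi_value] at h2
    simp only [s4] at h2
    norm_num at h2
  · refine ⟨phi, phi_continuous, phi_mono, phi_solution, ?_⟩
    intro c d h
    have h1 := congrFun h (-(1 / 2))
    rw [phi_value] at h1
    have h2 := congrFun h (-1)
    have h3 := congrFun h 1
    have p1 : phi 1 = 1 := by
      have := phi_F 1
      have f1 : F 1 = 1 := by have := F_int 1; simpa using this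
      rw [f1] at this
      rw [this, show ((1 + 1) / 2 : ℝ) = 1 by norm_num, f1]
    have p2 : phi (-1) = 0 := by
      have := phi_F (-1)
      have f1 : F (-1) = -1 := by have := F_int (-1); simpa using this
      have f0 : F 0 = 0 := by have := F_int 0; simpa using this
      rw [f1] at this
      rw [this, show ((-1 + 1) / 2 : ℝ) = 0 by norm_num, f0]
    rw [p2] at h2
    rw [p1] at h3
    linarith

end Pool.Agent.Results.MP_39cb5d_an.NonAffine
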